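import Pool.Agent.H.MP_1ae38f_an.C

namespace Pool.Agent.Results.MP_1ae38f_an.No

open Set Pool.Agent.H.MP_1ae38f_an
open scoped ENNReal

theorem result : ∃ D₁ D₂ : Set ℂ, IsOpen D₁ ∧ IsConnected D₁ ∧ IsOpen D₂ ∧ IsConnected D₂ ∧
    (∃ R : ℝ, 0 < R ∧ D₁ ∩ {z | R < ‖z‖} = D₂ ∩ {z | R < ‖z‖}) ∧
    hD D₁ ≠ hD D₂ ∧ bD D₁ ≠ bD D₂ ∧ ∀ α : ℝ, -1 < α → baD α D₁ ≠ baD α D₂ := by
  have hf : ff ∈ Hol D1 := ⟨ff_diff, ff_maps⟩
  have key : ∀ (F : (ℂ → ℂ) → ℝ≥0∞) (y : ℝ), F ff ≤ ENNReal.ofReal y →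
      (∀ f ∈ Hol D2, ∀ p : ℝ, 0 < p → ENNReal.ofReal p ≤ F f) →
      (⨅ f ∈ Hol D1, F f) ≠ ⨅ f ∈ Hol D2, F f := by
    intro F y h1 h2 h
    have h3 : ENNReal.ofReal (|y| + 1) ≤ ⨅ f ∈ Hol D2, F f :=
      le_iInf₂ fun f hf => h2 f hf _ (by positivity)
    rw [← h] at h3
    have h4 := (h3.trans (iInf₂_le ff hf)).trans h1
    have := (ENNReal.ofReal_le_ofReal_iff'.1 h4)
    rcases this with h5 | h5 <;> linarith [le_abs_self y, abs_nonneg y]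
  refine ⟨D1, D2, D1_open, D1_conn, D2_open, D2_conn, ⟨6, by norm_num, D_eq⟩,
    key hF 10 ?_ fun f hf p hp => ?_, key bF 5 ?_ fun f hf p hp => ?_,
    fun α hα => key (baF α) (5 * (α + 2)) ?_ fun f hf p hp => ?_⟩
  · refine sSup_le ?_
    rintro x (rfl | ⟨p, hp, h, rfl⟩)
    · exact zero_le
    · refine ENNReal.ofReal_le_ofReal (not_lt.1 fun hh => ?_)
      exact ff_not (α := 0) (by norm_num) (by linarith) (HA ff_diff hp (by norm_num) h)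
  · exact le_sSup (Or.inr ⟨p, hp, D2_H hf hp, rfl⟩)
  · refine sSup_le ?_
    rintro x (rfl | ⟨p, α, hp, hα, h, rfl⟩)
    · exact zero_le
    · refine ENNReal.ofReal_le_ofReal (not_lt.1 fun hh => ?_)
      exact ff_not hα ((lt_div_iff₀ (by linarith)).1 hh) h
  · refine le_sSup (Or.inr ⟨2 * p, 0, by positivity, by norm_num,
      HA hf.1 (by positivity) (by norm_num) (D2_H hf (by positivity)), ?_⟩)
    congr 1; ring
  · refine sSup_le ?_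
    rintro x (rfl | ⟨p, hp, h, rfl⟩)
    · exact zero_le
    · exact ENNReal.ofReal_le_ofReal (not_lt.1 fun hh => ff_not hα hh h)
  · exact le_sSup (Or.inr ⟨p, hp, HA hf.1 hp hα (D2_H hf hp), rfl⟩)

end Pool.Agent.Results.MP_1ae38f_an.No
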